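import Pool.Agent.Helper34.NT.Fib2

/-!
# The equation of a curve over `ℂ(ξ)` in two arbitrary coordinates
-/

set_option autoImplicit false

namespace Pool.Agent.Helper15.NT

open MvPolynomial Pool.Agent.Q72.EG Pool.Agent.Helper34.NT

/-- a polynomial which vanishes at a point with nonzero coordinates has two monomials -/
theorem two_monomials {E : Type} [Field E] {τ : Type} [Fintype τ] (w : τ → E) (hw : ∀ i, w i ≠ 0)
    (F : MvPolynomial τ E) (hF : F ≠ 0) (h : eval w F = 0) :
    ∃ u v, u ≠ v ∧ coeff u F ≠ 0 ∧ coeff v F ≠ 0 := by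
  classical
  obtain ⟨u, hu⟩ := exists_coeff_ne_zero hF
  by_contra hcon
  push Not at hcon
  have h1 : F = monomial u (coeff u F) := by
    ext v
    rw [coeff_monomial]
    split_ifs with huv
    · rw [huv]
    · exact hcon u v huv hu
  rw [h1, eval_monomial] at h
  rcases mul_eq_zero.1 h with h | h
  · exact hu h
  · rw [Finsupp.prod, Finset.prod_eq_zero_iff] at h
    obtain ⟨i, -, hi⟩ := h
    exact pow_ne_zero (u i) (hw i) hi

theorem curve_core {E : Type} [Field E] [Algebra ℂ E] {σ : Type} [Finite σ] (ξ : σ → E)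
    (a b : E) (ha : a ≠ 0) (hb : b ≠ 0)
    (h2 : Transcendental (IntermediateField.adjoin ℂ (Set.range ξ)) a)
    (h3 : IsAlgebraic (IntermediateField.adjoin (IntermediateField.adjoin ℂ (Set.range ξ)) {a}) b) :
    ∃ (F : MvPolynomial (Fin 2) (MvPolynomial σ ℂ)) (h : MvPolynomial σ ℂ),
      aeval ξ h ≠ 0 ∧ (∃ u v, u ≠ v ∧ aeval ξ (coeff u F) ≠ 0 ∧ aeval ξ (coeff v F) ≠ 0) ∧
      ∀ p ∈ Pt ξ, eval p h ≠ 0 → ∀ w : Fin 2 → ℂ, eval w (map (eval p) F) = 0 →
        Sum.elim p ![w 1, w 0] ∈ Pt (Sum.elim ξ ![a, b]) := by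
  classical
  obtain ⟨F0, hF0, hF⟩ := kerp h2 h3
  obtain ⟨d0, F', hd0, hF'⟩ := clear ξ F0
  set φ : MvPolynomial σ ℂ →+* E := (aeval ξ : MvPolynomial σ ℂ →ₐ[ℂ] E).toRingHom with hφ
  have hφa : ∀ q, φ q = aeval ξ q := fun q => rfl
  have hmap : ∀ G : MvPolynomial (Fin 2) (IntermediateField.adjoin ℂ (Set.range ξ)),
      eval₂ (RingHom.id E) ![b, a] (map (algebraMap _ E) G) = aeval ![b, a] G := by
    intro G
    rw [eval₂_map, aeval_def]
    rfl
  have hrel : eval₂ φ ![b, a] F' = 0 := by
    have h4 : eval₂ (RingHom.id E) ![b, a] (map φ F') = 0 := by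
      rw [hF', eval₂_mul, hmap, (hF F0).2 dvd_rfl, mul_zero]
    rw [eval₂_map] at h4
    exact h4
  have hne : map φ F' ≠ 0 := by
    rw [hF']
    refine mul_ne_zero ?_ ?_
    · rw [Ne, C_eq_zero]
      exact hd0
    · intro h
      exact hF0 ((map_injective _ (algebraMap
        (IntermediateField.adjoin ℂ (Set.range ξ)) E).injective) (by rw [h, map_zero]))
  have htwo : ∃ u v, u ≠ v ∧ aeval ξ (coeff u F') ≠ 0 ∧ aeval ξ (coeff v F') ≠ 0 := by
    obtain ⟨u, v, h4, h5, h6⟩ := two_monomials ![b, a] (by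
      intro i
      fin_cases i
      · exact hb
      · exact ha) (map φ F') hne (by rw [eval_map]; exact hrel)
    rw [coeff_map] at h5 h6
    exact ⟨u, v, h4, h5, h6⟩
  -- the generators of the ideal
  set I : Ideal (MvPolynomial (σ ⊕ Fin 2) ℂ) :=
    RingHom.ker (aeval (Sum.elim ξ ![a, b]) : MvPolynomial (σ ⊕ Fin 2) ℂ →ₐ[ℂ] E) with hI
  obtain ⟨s, hs⟩ : I.FG := IsNoetherian.noetherian I
  have hgen : ∀ g ∈ I, ∃ (d : MvPolynomial σ ℂ) (G : MvPolynomial (Fin 2) (MvPolynomial σ ℂ)),
      aeval ξ d ≠ 0 ∧ map φ (C d * sub g) = map φ (F' * G) := by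
    intro g hg
    have hg' : aeval (Sum.elim ξ ![a, b]) g = 0 := hg
    let ξ' : σ → IntermediateField.adjoin ℂ (Set.range ξ) := fun i =>
      ⟨ξ i, IntermediateField.subset_adjoin _ _ ⟨i, rfl⟩⟩
    have hcomp : (algebraMap (IntermediateField.adjoin ℂ (Set.range ξ)) E).comp
        (aeval ξ' : MvPolynomial σ ℂ →ₐ[ℂ] _).toRingHom = φ := by
      apply MvPolynomial.ringHom_ext
      · intro r
        simp only [hφ, RingHom.comp_apply]
        show algebraMap _ E (aeval ξ' (C r)) = aeval ξ (C r)
        rw [aeval_C, aeval_C]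
        rfl
      · intro i
        simp only [hφ, RingHom.comp_apply]
        show algebraMap _ E (aeval ξ' (X i)) = aeval ξ (X i)
        rw [aeval_X, aeval_X]
        rfl
    set gK : MvPolynomial (Fin 2) (IntermediateField.adjoin ℂ (Set.range ξ)) :=
      map (aeval ξ' : MvPolynomial σ ℂ →ₐ[ℂ] _).toRingHom (sub g) with hgK
    have h6 : map (algebraMap _ E) gK = map φ (sub g) := by
      rw [hgK, map_map, hcomp]
    have h7 : aeval ![b, a] gK = 0 := by
      rw [← hmap, h6, eval₂_map, RingHom.id_comp, sub_eval, ← hg', aeval_def]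
      congr 1
      · ext r
        simp [hφ]
      · funext i
        rcases i with i | i
        · simp [hφ]
        · fin_cases i <;> simp
    obtain ⟨G0, hG0⟩ := (hF gK).1 h7
    obtain ⟨d, G, hd, hG⟩ := clear ξ G0
    refine ⟨d0 * d, G, ?_, ?_⟩
    · rw [map_mul]
      exact mul_ne_zero hd0 hd
    · have e1 : map φ (C (d0 * d) * sub g) = C (aeval ξ d0) * C (aeval ξ d) *
          (map (algebraMap _ E) F0 * map (algebraMap _ E) G0) := by
        rw [map_mul, map_C, ← h6, hG0, map_mul (map _), hφa, map_mul, map_mul]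
      have e2 : map φ (F' * G) = C (aeval ξ d0) * map (algebraMap _ E) F0 *
          (C (aeval ξ d) * map (algebraMap _ E) G0) := by
        rw [map_mul (map _), hF', hφ, hG]
      rw [e1, e2]
      ring
  choose! d G hd hG using hgen
  refine ⟨F', ∏ g ∈ s, d g, ?_, htwo, ?_⟩
  · rw [map_prod, Finset.prod_ne_zero_iff]
    intro g hg
    exact hd g (by rw [← hs]; exact Ideal.subset_span hg)
  · intro p hp hhp w hsum0
    have h8 : eval₂ (eval p) w F' = 0 := by
      rw [eval_map] at hsum0
      exact hsum0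
    have hIle : I ≤ RingHom.ker (eval (Sum.elim p ![w 1, w 0])) := by
      rw [← hs, Ideal.span_le]
      intro g hg
      have hgI : g ∈ I := by rw [← hs]; exact Ideal.subset_span hg
      have h9 := hG g hgI
      have h10 : map (eval p) (C (d g) * sub g) = map (eval p) (F' * G g) := by
        ext u
        rw [coeff_map, coeff_map]
        have h11 := congrArg (coeff u) h9
        rw [coeff_map, coeff_map, ← sub_eq_zero, ← map_sub] at h11
        rw [← sub_eq_zero, ← map_sub]
        exact hp _ h11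
      have h12 := congrArg (eval₂ (RingHom.id ℂ) w) h10
      rw [eval₂_map, eval₂_map, RingHom.id_comp, eval₂_mul, eval₂_mul, h8, zero_mul, eval₂_C,
        sub_eval] at h12
      have h13 : eval p (d g) ≠ 0 := by
        rw [map_prod, Finset.prod_ne_zero_iff] at hhp
        exact hhp g hg
      rcases mul_eq_zero.1 h12 with h | h
      · exact absurd h h13
      · show eval (Sum.elim p ![w 1, w 0]) g = 0
        rw [← h, eval, coe_eval₂Hom]
        congr 1
        · ext r
          simp
        · funext i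
          rcases i with i | i
          · simp
          · fin_cases i <;> simp
    intro g hg
    exact hIle hg

end Pool.Agent.Helper15.NT
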