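import Mathlib

/-!
# Exponential points on plane curves with two monomials
-/

set_option autoImplicit false

namespace Pool.Agent.Helper15.NT

open MvPolynomial

/-- the theorem of Brownawell and Masser for curves -/
def Bm1 : Prop := ∀ {E : Type} [Field E] [Algebra ℂ E] (x y : E), y ≠ 0 →
    (∀ g : MvPolynomial (Fin 1) ℂ, aeval (fun _ => x) g = 0 → g = 0) →
    ∃ z : ℂ, ∀ g : MvPolynomial (Fin 1 ⊕ Fin 1) ℂ,
      aeval (Sum.elim (fun _ => x) (fun _ => y) : Fin 1 ⊕ Fin 1 → E) g = 0 →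
      eval (Sum.elim (fun _ => z) (fun _ => Complex.exp z) : Fin 1 ⊕ Fin 1 → ℂ) g = 0

/-- the point `(z, exp z)`; the coordinate `e` is the exponential -/
noncomputable def ep (e : Fin 2) (z : ℂ) : Fin 2 → ℂ := fun i => if i = e then Complex.exp z else z

theorem not_monomial {k : ℕ} {e : Fin 2} {F F1 : MvPolynomial (Fin 2) ℂ}
    (hF : F = X e ^ k * F1) (h2 : ∃ u v, u ≠ v ∧ coeff u F ≠ 0 ∧ coeff v F ≠ 0) : ¬ IsUnit F1 := by
  classical
  intro hu
  obtain ⟨c, -, hc⟩ := MvPolynomial.isUnit_iff_eq_C_of_isReduced.1 hu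
  obtain ⟨u, v, huv, hu, hv⟩ := h2
  have h3 : F = monomial (Finsupp.single e k) c := by
    rw [hF, hc, mul_comm, C_mul_X_pow_eq_monomial]
  rw [h3, coeff_monomial] at hu hv
  apply huv
  have h4 : Finsupp.single e k = u := by
    by_contra h
    rw [if_neg h] at hu
    exact hu rfl
  have h5 : Finsupp.single e k = v := by
    by_contra h
    rw [if_neg h] at hv
    exact hv rfl
  rw [← h4, ← h5]

/-- a divisor of `X - r` which is not a unit vanishes where `X = r` -/
theorem eval_dvd_linear {G : MvPolynomial (Fin 2) ℂ} {i : Fin 2} {r : ℂ} (hG : ¬ IsUnit G)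
    (h : G ∣ X i - C r) (w : Fin 2 → ℂ) (hw : w i = r) : eval w G = 0 := by
  classical
  obtain ⟨K, hK⟩ := h
  have hne : (X i - C r : MvPolynomial (Fin 2) ℂ) ≠ 0 := by
    intro h0
    have := congrArg (eval (fun _ => r + 1)) h0
    simp at this
  have hG0 : G ≠ 0 := by
    rintro rfl
    rw [zero_mul] at hK
    exact hne hK
  have hK0 : K ≠ 0 := by
    rintro rfl
    rw [mul_zero] at hK
    exact hne hK
  have hdeg := totalDegree_mul_of_isDomain hG0 hK0
  rw [← hK] at hdeg
  have hle : (X i - C r : MvPolynomial (Fin 2) ℂ).totalDegree ≤ 1 := by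
    refine (totalDegree_sub _ _).trans ?_
    rw [totalDegree_X, totalDegree_C]
    simp
  have hG1 : G.totalDegree ≠ 0 := by
    intro h0
    apply hG
    have h1 := totalDegree_eq_zero_iff_eq_C.1 h0
    rw [h1]
    refine (isUnit_iff_ne_zero.2 ?_).map C
    intro h2
    rw [h2, C_0] at h1
    exact hG0 h1
  have hKd : K.totalDegree = 0 := by omega
  have h1 := totalDegree_eq_zero_iff_eq_C.1 hKd
  have h2 := congrArg (eval w) hK
  rw [map_sub, eval_X, eval_C, hw, sub_self, map_mul, h1, eval_C] at h2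
  rcases mul_eq_zero.1 h2.symm with h | h
  · exact h
  · rw [h, C_0] at h1
    exact absurd h1 hK0

theorem irreducible_root (bm : Bm1) (e : Fin 2) (G : MvPolynomial (Fin 2) ℂ) (hG : Irreducible G)
    (hGe : ¬ G ∣ X e) : ∃ z : ℂ, eval (ep e z) G = 0 := by
  classical
  obtain ⟨e', he'⟩ : ∃ e' : Fin 2, e' ≠ e := ⟨e + 1, by fin_cases e <;> decide⟩
  have hprime : (Ideal.span {G} : Ideal (MvPolynomial (Fin 2) ℂ)).IsPrime :=
    (Ideal.span_singleton_prime hG.ne_zero).2 hG.prime
  set R := MvPolynomial (Fin 2) ℂ ⧸ (Ideal.span {G} : Ideal (MvPolynomial (Fin 2) ℂ)) with hR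
  let E := FractionRing R
  let q : MvPolynomial (Fin 2) ℂ →ₐ[ℂ] E :=
    (IsScalarTower.toAlgHom ℂ R E).comp (Ideal.Quotient.mkₐ ℂ (Ideal.span {G}))
  have hq : ∀ g, q g = 0 ↔ G ∣ g := by
    intro g
    have h1 : q g = algebraMap R E (Ideal.Quotient.mk _ g) := rfl
    rw [h1, map_eq_zero_iff _ (IsFractionRing.injective R E), Ideal.Quotient.eq_zero_iff_mem,
      Ideal.mem_span_singleton]
  by_cases htr : ∀ g : MvPolynomial (Fin 1) ℂ, aeval (fun _ => q (X e')) g = 0 → g = 0
  · obtain ⟨z, hz⟩ := bm (q (X e')) (q (X e)) (fun h => hGe ((hq _).1 h)) htr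
    refine ⟨z, ?_⟩
    have h1 := hz (rename (fun i => if i = e then Sum.inr 0 else Sum.inl 0) G) (by
      rw [aeval_rename]
      have h2 : (Sum.elim (fun _ => q (X e')) (fun _ => q (X e)) : Fin 1 ⊕ Fin 1 → E) ∘
          (fun i : Fin 2 => if i = e then Sum.inr 0 else Sum.inl 0) = fun i => q (X i) := by
        funext i
        by_cases hi : i = e
        · simp [hi]
        · have : i = e' := by omega
          simp [this, he']
      rw [h2]
      have h3 : aeval (fun i => q (X i)) G = q G := by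
        rw [← comp_aeval_apply, aeval_X_left_apply]
      rw [h3, hq])
    rw [eval_rename] at h1
    have h4 : ep e z = (Sum.elim (fun _ => z) (fun _ => Complex.exp z) : Fin 1 ⊕ Fin 1 → ℂ) ∘
        (fun i : Fin 2 => if i = e then Sum.inr 0 else Sum.inl 0) := by
      funext i
      by_cases hi : i = e
      · simp [ep, hi]
      · simp [ep, hi]
    rw [h4]
    exact h1
  · push Not at htr
    obtain ⟨g, hg, hg0⟩ := htr
    -- `q (X e')` is a root of a polynomial
    set P : Polynomial ℂ := uniqueAlgEquiv ℂ (Fin 1) g with hP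
    have hP0 : P ≠ 0 := by
      rw [hP, Ne, map_eq_zero_iff _ (uniqueAlgEquiv ℂ (Fin 1)).injective]
      exact hg0
    have hPx : Polynomial.aeval (q (X e')) P = 0 := by
      rw [← hg]
      have : ((Polynomial.aeval (q (X e'))).comp
          ((uniqueAlgEquiv ℂ (Fin 1) : MvPolynomial (Fin 1) ℂ ≃ₐ[ℂ] Polynomial ℂ) :
            MvPolynomial (Fin 1) ℂ →ₐ[ℂ] Polynomial ℂ)) = aeval (fun _ => q (X e')) := by
        apply MvPolynomial.algHom_ext
        intro i
        simp [uniqueAlgEquiv]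
      exact DFunLike.congr_fun this g
    have halg : IsAlgebraic ℂ (q (X e')) := ⟨P, hP0, hPx⟩
    obtain ⟨r, hr⟩ : ∃ r : ℂ, algebraMap ℂ E r = q (X e') := by
      have h1 := IsAlgClosed.degree_eq_one_of_irreducible ℂ (minpoly.irreducible halg.isIntegral)
      have h2 := minpoly.mem_range_of_degree_eq_one ℂ (q (X e')) h1
      exact h2
    refine ⟨r, eval_dvd_linear (i := e') (r := r) hG.not_isUnit ?_ _ ?_⟩
    · rw [← hq, map_sub, sub_eq_zero, ← hr]
      exact (q.commutes r).symm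
    · simp [ep, he']

theorem exp_root (bm : Bm1) (e : Fin 2) (F : MvPolynomial (Fin 2) ℂ)
    (hF : ∃ u v, u ≠ v ∧ coeff u F ≠ 0 ∧ coeff v F ≠ 0) : ∃ z : ℂ, eval (ep e z) F = 0 := by
  classical
  have hF0 : F ≠ 0 := by
    obtain ⟨u, v, -, hu, -⟩ := hF
    rintro rfl
    exact hu (coeff_zero u)
  have hXe : Prime (X e : MvPolynomial (Fin 2) ℂ) := MvPolynomial.X_prime
  obtain ⟨k, F1, hF1, hFk⟩ := WfDvdMonoid.max_power_factor hF0 hXe.irreducible
  have hu := not_monomial hFk hF
  have hF10 : F1 ≠ 0 := by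
    rintro rfl
    rw [mul_zero] at hFk
    exact hF0 hFk
  obtain ⟨G, hG, hGF⟩ := WfDvdMonoid.exists_irreducible_factor hu hF10
  have hGe : ¬ G ∣ X e := by
    intro h
    have h1 : Associated G (X e) := hG.associated_of_dvd hXe.irreducible h
    exact hF1 (h1.symm.dvd.trans hGF)
  obtain ⟨z, hz⟩ := irreducible_root bm e G hG hGe
  refine ⟨z, ?_⟩
  obtain ⟨K, hK⟩ := hGF
  rw [hFk, hK, map_mul, map_mul, hz, zero_mul, mul_zero]

end Pool.Agent.Helper15.NT
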