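import Mathlib

/-!
# Transcendence degrees in the exceptional family
-/

set_option autoImplicit false

namespace Pool.Agent.Helper15.NT

open IntermediateField

section

variable {k E : Type} [Field k] [Field E] [Algebra k E]

theorem alg_mono {S T : Set E} (h : ∀ s ∈ S, IsAlgebraic (adjoin k T) s) {t : E}
    (ht : IsAlgebraic (adjoin k S) t) : IsAlgebraic (adjoin k T) t := by
  rw [isAlgebraic_adjoin_iff] at ht ⊢
  refine IsAlgebraic.adjoin_of_forall_isAlgebraic (fun x hx => ?_) ht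
  have := h x hx.1
  rwa [isAlgebraic_adjoin_iff] at this

theorem alg_mem {T : Set E} {t : E} (ht : t ∈ T) : IsAlgebraic (adjoin k T) t :=
  isAlgebraic_algebraMap (⟨t, subset_adjoin k T ht⟩ : adjoin k T)

theorem alg_sub {S T : Set E} (h : S ⊆ T) {t : E}
    (ht : IsAlgebraic (adjoin k S) t) : IsAlgebraic (adjoin k T) t :=
  alg_mono (fun _ hs => alg_mem (h hs)) ht

theorem alg_base (S T : Set E) (t : E) :
    IsAlgebraic (adjoin (adjoin k S) T) t ↔ IsAlgebraic (adjoin k (S ∪ T)) t := by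
  rw [← adjoin_adjoin_left]
  exact Iff.rfl

theorem indep_cons {n : ℕ} (a : E) (v : Fin n → E) :
    AlgebraicIndependent k (Matrix.vecCons a v) ↔
      AlgebraicIndependent k v ∧ Transcendental (adjoin k (Set.range v)) a := by
  have h1 : Matrix.vecCons a v = (fun o : Option (Fin n) => o.elim a v) ∘ finSuccEquiv n := by
    funext i
    refine Fin.cases ?_ (fun j => ?_) i
    · simp
    · simp
  rw [h1, algebraicIndependent_equiv, AlgebraicIndependent.option_iff, transcendental_adjoin_iff]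

theorem ind2 (a b : E) : AlgebraicIndependent k ![a, b] ↔
    Transcendental k b ∧ Transcendental (adjoin k {b}) a := by
  rw [indep_cons]
  have h1 : Set.range ![b] = {b} := by simp
  rw [h1, algebraicIndependent_unique_type_iff]
  rfl

theorem ind3 (a b c : E) : AlgebraicIndependent k ![a, b, c] ↔
    AlgebraicIndependent k ![b, c] ∧ Transcendental (adjoin k {b, c}) a := by
  rw [indep_cons]
  have h1 : Set.range ![b, c] = {b, c} := by simp [Set.pair_comm]
  rw [h1]

theorem perm2 {a b : E} (h : AlgebraicIndependent k ![a, b]) : AlgebraicIndependent k ![b, a] := by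
  have h1 : (![b, a] : Fin 2 → E) = ![a, b] ∘ ![1, 0] := by
    funext i
    fin_cases i <;> rfl
  rw [h1]
  exact h.comp _ (by decide)

theorem perm3 {a b c : E} (h : AlgebraicIndependent k ![c, a, b]) :
    AlgebraicIndependent k ![a, b, c] := by
  have h1 : (![a, b, c] : Fin 3 → E) = ![c, a, b] ∘ ![1, 2, 0] := by
    funext i
    fin_cases i <;> rfl
  rw [h1]
  exact h.comp _ (by decide)

end

section

variable {E : Type} [Field E] [Algebra ℂ E] {x0 x1 x2 y0 y1 y2 : E}

theorem t1 (h1 : IsAlgebraic (adjoin ℂ {x0}) x1) (h0 : IsAlgebraic (adjoin ℂ {x0}) y0)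
    (ht : Transcendental (adjoin ℂ {x0}) y1) {Z : Set E} (hZ : ∀ s ∈ Z, s = x0 ∨ s = x1 ∨ s = y0) :
    Transcendental (adjoin ℂ Z) y1 := by
  intro h
  apply ht
  refine alg_mono (fun s hs => ?_) h
  rcases hZ s hs with rfl | rfl | rfl
  · exact alg_mem rfl
  · exact h1
  · exact h0

theorem t2 (h1 : IsAlgebraic (adjoin ℂ {x0}) x1) (h0 : IsAlgebraic (adjoin ℂ {x0}) y0)
    (hor : AlgebraicIndependent (adjoin ℂ {x0}) ![x2, y1] ∨
      AlgebraicIndependent (adjoin ℂ {x0}) ![y1, y2])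
    (hn : ¬ AlgebraicIndependent (adjoin ℂ {x0}) ![x2, y1, y2])
    {Z : Set E} (hZ : ∀ s ∈ Z, s = y1 ∨ s = x0 ∨ s = x1 ∨ s = y0) (hx0 : x0 ∈ Z) (hy1 : y1 ∈ Z) :
    (Transcendental (adjoin ℂ Z) x2 ∧ IsAlgebraic (adjoin (adjoin ℂ Z) {x2}) y2) ∨
      (Transcendental (adjoin ℂ Z) y2 ∧ IsAlgebraic (adjoin (adjoin ℂ Z) {y2}) x2) := by
  have key : ∀ t : E, IsAlgebraic (adjoin ℂ Z) t → IsAlgebraic (adjoin (adjoin ℂ {x0}) {y1}) t := by
    intro t ht
    rw [alg_base]
    refine alg_mono (fun s hs => ?_) ht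
    rcases hZ s hs with rfl | rfl | rfl | rfl
    · exact alg_mem (Or.inr rfl)
    · exact alg_mem (Or.inl rfl)
    · exact alg_sub Set.subset_union_left h1
    · exact alg_sub Set.subset_union_left h0
  rcases hor with hor | hor
  · left
    refine ⟨fun h => ((ind2 _ _).1 hor).2 (key _ h), ?_⟩
    have h2 : ¬ Transcendental (adjoin (adjoin ℂ {x0}) {x2, y1}) y2 := by
      intro h
      exact hn (perm3 ((ind3 _ _ _).2 ⟨hor, h⟩))
    have h3 : IsAlgebraic (adjoin (adjoin ℂ {x0}) {x2, y1}) y2 := not_not.1 h2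
    rw [alg_base] at h3 ⊢
    refine alg_sub ?_ h3
    rintro s (hs | hs | hs)
    · rw [Set.mem_singleton_iff.1 hs]; exact Or.inl hx0
    · rw [hs]; exact Or.inr rfl
    · rw [Set.mem_singleton_iff.1 hs]; exact Or.inl hy1
  · right
    refine ⟨fun h => ((ind2 _ _).1 (perm2 hor)).2 (key _ h), ?_⟩
    have h2 : ¬ Transcendental (adjoin (adjoin ℂ {x0}) {y1, y2}) x2 := by
      intro h
      exact hn ((ind3 _ _ _).2 ⟨hor, h⟩)
    have h3 : IsAlgebraic (adjoin (adjoin ℂ {x0}) {y1, y2}) x2 := not_not.1 h2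
    rw [alg_base] at h3 ⊢
    refine alg_sub ?_ h3
    rintro s (hs | hs | hs)
    · rw [Set.mem_singleton_iff.1 hs]; exact Or.inl hx0
    · rw [hs]; exact Or.inl hy1
    · rw [Set.mem_singleton_iff.1 hs]; exact Or.inr rfl

end

end Pool.Agent.Helper15.NT
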