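import Pool.Agent.Helper15.NT.ExcA

/-!
# The equation of a hypersurface over `ℂ(ξ)`
-/

set_option autoImplicit false

namespace Pool.Agent.Helper15.NT

open MvPolynomial Pool.Agent.Q72.EG Pool.Agent.Helper34.NT

section ker

variable {k E : Type} [Field k] [Field E] [Algebra k E]

/-- the kernel of evaluation at `(v, y)` is principal, `y` algebraically independent -/
theorem kerpn {m : ℕ} {y : Fin m → E} (hy : AlgebraicIndependent k y) (v : E)
    (G0 : MvPolynomial (Fin (m + 1)) k) (hG0 : G0 ≠ 0)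
    (h0 : aeval (Fin.cons v y : Fin (m + 1) → E) G0 = 0) :
    ∃ F : MvPolynomial (Fin (m + 1)) k, F ≠ 0 ∧
      ∀ G : MvPolynomial (Fin (m + 1)) k, aeval (Fin.cons v y : Fin (m + 1) → E) G = 0 ↔ F ∣ G := by
  let φ : MvPolynomial (Fin m) k →ₐ[k] E := aeval y
  have hφ : Function.Injective φ := hy
  let K := FractionRing (MvPolynomial (Fin m) k)
  let ψ : K →ₐ[k] E := IsFractionRing.liftAlgHom (K := K) hφ
  have hψ : ∀ a : MvPolynomial (Fin m) k, ψ (algebraMap _ K a) = φ a := by
    intro a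
    exact IsFractionRing.lift_algebraMap (K := K) hφ a
  let _ : Algebra (MvPolynomial (Fin m) k) E := φ.toRingHom.toAlgebra
  let _ : Algebra K E := ψ.toRingHom.toAlgebra
  have hst : IsScalarTower (MvPolynomial (Fin m) k) K E :=
    IsScalarTower.of_algebraMap_eq fun a => (hψ a).symm
  have key : ∀ G : MvPolynomial (Fin (m + 1)) k,
      Polynomial.aeval v (finSuccEquiv k m G) = aeval (Fin.cons v y : Fin (m + 1) → E) G := by
    intro G
    induction G using MvPolynomial.induction_on with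
    | C a =>
      rw [MvPolynomial.finSuccEquiv_apply]
      simp only [eval₂Hom_C, RingHom.coe_comp, Function.comp_apply, Polynomial.aeval_C,
        MvPolynomial.aeval_C]
      show φ (C a) = _
      simp [φ]
    | add p q hp hq => rw [map_add, map_add, map_add, hp, hq]
    | mul_X p i hp =>
      rw [map_mul, map_mul, map_mul, hp]
      congr 1
      refine Fin.cases ?_ (fun j => ?_) i
      · rw [finSuccEquiv_X_zero, Polynomial.aeval_X, aeval_X]
        rfl
      · rw [finSuccEquiv_X_succ, Polynomial.aeval_C, aeval_X]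
        show φ (X j) = _
        simp [φ]
  have halg0 : IsAlgebraic (MvPolynomial (Fin m) k) v := by
    refine ⟨finSuccEquiv k m G0, ?_, ?_⟩
    · intro h
      exact hG0 ((finSuccEquiv k m).injective (by rw [h, map_zero]))
    · rw [key, h0]
  have halg : IsAlgebraic K v := halg0.extendScalars (IsFractionRing.injective _ K)
  obtain ⟨F, hF, -, hG⟩ := Pool.Agent.W597.EC.ker_principal (R := MvPolynomial (Fin m) k)
    (K := K) (L := E) v halg
  refine ⟨(finSuccEquiv k m).symm F, ?_, fun G => ?_⟩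
  · intro h
    apply hF.ne_zero
    have := congrArg (finSuccEquiv k m) h
    rw [AlgEquiv.apply_symm_apply, map_zero] at this
    exact this
  · rw [← key, hG]
    constructor
    · rintro ⟨H, hH⟩
      refine ⟨(finSuccEquiv k m).symm H, ?_⟩
      apply (finSuccEquiv k m).injective
      rw [map_mul, AlgEquiv.apply_symm_apply, AlgEquiv.apply_symm_apply, hH]
    · rintro ⟨H, hH⟩
      refine ⟨finSuccEquiv k m H, ?_⟩
      rw [hH, map_mul, AlgEquiv.apply_symm_apply]

end ker

section sub

variable {σ τ : Type}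

/-- `g(ξ, y)` as a polynomial in `y` -/
noncomputable def sb : MvPolynomial (σ ⊕ τ) ℂ →ₐ[ℂ] MvPolynomial τ (MvPolynomial σ ℂ) :=
  aeval (Sum.elim (fun i => C (X i)) X)

theorem sb_eval {T : Type} [CommRing T] (f : MvPolynomial σ ℂ →+* T) (w : τ → T)
    (g : MvPolynomial (σ ⊕ τ) ℂ) :
    eval₂ f w (sb g) = eval₂ (f.comp C) (Sum.elim (fun i => f (X i)) w) g := by
  induction g using MvPolynomial.induction_on with
  | C a =>
    rw [eval₂_C]
    have : sb (σ := σ) (τ := τ) (C a) = C (C a) := by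
      rw [sb, aeval_C]
      rfl
    rw [this, eval₂_C]
    rfl
  | add p q hp hq => rw [map_add, eval₂_add, eval₂_add, hp, hq]
  | mul_X p i hp =>
    have hX : eval₂ f w (sb (X i)) = Sum.elim (fun i => f (X i)) w i := by
      rw [sb, aeval_X]
      rcases i with i | i
      · show eval₂ f w (C (X i)) = f (X i)
        rw [eval₂_C]
      · show eval₂ f w (X i) = w i
        rw [eval₂_X]
    rw [map_mul, eval₂_mul, eval₂_mul, hp, hX, eval₂_X]

end sub

variable {E : Type} [Field E] [Algebra ℂ E] {σ : Type}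

/-- the reduction of `sb g` to the field `ℂ(ξ)` -/
theorem sb_red (ξ : σ → E) {τ : Type} (w : τ → E) (g : MvPolynomial (σ ⊕ τ) ℂ)
    (hg : aeval (Sum.elim ξ w) g = 0) :
    ∃ gK : MvPolynomial τ (IntermediateField.adjoin ℂ (Set.range ξ)),
      map (algebraMap _ E) gK = map (aeval ξ : MvPolynomial σ ℂ →ₐ[ℂ] E).toRingHom (sb g) ∧
      aeval w gK = 0 := by
  set φ : MvPolynomial σ ℂ →+* E := (aeval ξ : MvPolynomial σ ℂ →ₐ[ℂ] E).toRingHom with hφ
  let ξ' : σ → IntermediateField.adjoin ℂ (Set.range ξ) := fun i =>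
    ⟨ξ i, IntermediateField.subset_adjoin _ _ ⟨i, rfl⟩⟩
  have hcomp : (algebraMap (IntermediateField.adjoin ℂ (Set.range ξ)) E).comp
      (aeval ξ' : MvPolynomial σ ℂ →ₐ[ℂ] _).toRingHom = φ := by
    apply MvPolynomial.ringHom_ext
    · intro r
      simp only [hφ, RingHom.comp_apply]
      show algebraMap _ E (aeval ξ' (C r)) = aeval ξ (C r)
      rw [aeval_C, aeval_C]
      rfl
    · intro i
      simp only [hφ, RingHom.comp_apply]
      show algebraMap _ E (aeval ξ' (X i)) = aeval ξ (X i)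
      rw [aeval_X, aeval_X]
      rfl
  set gK : MvPolynomial τ (IntermediateField.adjoin ℂ (Set.range ξ)) :=
    map (aeval ξ' : MvPolynomial σ ℂ →ₐ[ℂ] _).toRingHom (sb g) with hgK
  have h6 : map (algebraMap _ E) gK = map φ (sb g) := by
    rw [hgK, map_map, hcomp]
  refine ⟨gK, h6, ?_⟩
  have h8 : eval₂ (RingHom.id E) w (map (algebraMap _ E) gK) = aeval w gK := by
    rw [eval₂_map, aeval_def]
    rfl
  rw [← h8, h6, eval₂_map, RingHom.id_comp, sb_eval, ← hg, aeval_def]
  congr 1
  · ext r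
    simp [hφ]
  · funext i
    rcases i with i | i
    · simp [hφ]
    · simp

theorem hyper_core [Finite σ] {τ : Type} [Fintype τ] (ξ : σ → E) (y : τ → E) (hy : ∀ i, y i ≠ 0)
    (F0 : MvPolynomial τ (IntermediateField.adjoin ℂ (Set.range ξ))) (hF0 : F0 ≠ 0)
    (hF : ∀ G : MvPolynomial τ (IntermediateField.adjoin ℂ (Set.range ξ)),
      aeval y G = 0 ↔ F0 ∣ G) :
    ∃ (F : MvPolynomial τ (MvPolynomial σ ℂ)) (h : MvPolynomial σ ℂ),
      aeval ξ h ≠ 0 ∧ (∃ u v, u ≠ v ∧ aeval ξ (coeff u F) ≠ 0 ∧ aeval ξ (coeff v F) ≠ 0) ∧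
      ∀ p ∈ Pt ξ, eval p h ≠ 0 → ∀ w : τ → ℂ, eval w (map (eval p) F) = 0 →
        Sum.elim p w ∈ Pt (Sum.elim ξ y) := by
  classical
  obtain ⟨d0, F', hd0, hF'⟩ := clear ξ F0
  set φ : MvPolynomial σ ℂ →+* E := (aeval ξ : MvPolynomial σ ℂ →ₐ[ℂ] E).toRingHom with hφ
  have hφa : ∀ q, φ q = aeval ξ q := fun q => rfl
  have hmap : ∀ G : MvPolynomial τ (IntermediateField.adjoin ℂ (Set.range ξ)),
      eval₂ (RingHom.id E) y (map (algebraMap _ E) G) = aeval y G := by
    intro G
    rw [eval₂_map, aeval_def]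
    rfl
  have hrel : eval₂ φ y F' = 0 := by
    have h4 : eval₂ (RingHom.id E) y (map φ F') = 0 := by
      rw [hF', eval₂_mul, hmap, (hF F0).2 dvd_rfl, mul_zero]
    rw [eval₂_map] at h4
    exact h4
  have hne : map φ F' ≠ 0 := by
    rw [hF']
    refine mul_ne_zero ?_ ?_
    · rw [Ne, C_eq_zero]
      exact hd0
    · intro h
      exact hF0 ((map_injective _ (algebraMap
        (IntermediateField.adjoin ℂ (Set.range ξ)) E).injective) (by rw [h, map_zero]))
  have htwo : ∃ u v, u ≠ v ∧ aeval ξ (coeff u F') ≠ 0 ∧ aeval ξ (coeff v F') ≠ 0 := by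
    obtain ⟨u, v, h4, h5, h6⟩ := two_monomials y hy (map φ F') hne (by rw [eval_map]; exact hrel)
    rw [coeff_map] at h5 h6
    exact ⟨u, v, h4, h5, h6⟩
  -- the generators of the ideal
  set I : Ideal (MvPolynomial (σ ⊕ τ) ℂ) :=
    RingHom.ker (aeval (Sum.elim ξ y) : MvPolynomial (σ ⊕ τ) ℂ →ₐ[ℂ] E) with hI
  obtain ⟨s, hs⟩ : I.FG := IsNoetherian.noetherian I
  have hgen : ∀ g ∈ I, ∃ (d : MvPolynomial σ ℂ) (G : MvPolynomial τ (MvPolynomial σ ℂ)),
      aeval ξ d ≠ 0 ∧ map φ (C d * sb g) = map φ (F' * G) := by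
    intro g hg
    have hg' : aeval (Sum.elim ξ y) g = 0 := hg
    obtain ⟨gK, h6, h7⟩ := sb_red ξ y g hg'
    obtain ⟨G0, hG0⟩ := (hF gK).1 h7
    obtain ⟨d, G, hd, hG⟩ := clear ξ G0
    refine ⟨d0 * d, G, ?_, ?_⟩
    · rw [map_mul]
      exact mul_ne_zero hd0 hd
    · have e1 : map φ (C (d0 * d) * sb g) = C (aeval ξ d0) * C (aeval ξ d) *
          (map (algebraMap _ E) F0 * map (algebraMap _ E) G0) := by
        rw [map_mul, map_C, ← h6, hG0, map_mul (map _), hφa, map_mul, map_mul]
      have e2 : map φ (F' * G) = C (aeval ξ d0) * map (algebraMap _ E) F0 *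
          (C (aeval ξ d) * map (algebraMap _ E) G0) := by
        rw [map_mul (map _), hF', hφ, hG]
      rw [e1, e2]
      ring
  choose! d G hd hG using hgen
  refine ⟨F', ∏ g ∈ s, d g, ?_, htwo, ?_⟩
  · rw [map_prod, Finset.prod_ne_zero_iff]
    intro g hg
    exact hd g (by rw [← hs]; exact Ideal.subset_span hg)
  · intro p hp hhp w hsum0
    have h8 : eval₂ (eval p) w F' = 0 := by
      rw [eval_map] at hsum0
      exact hsum0
    have hIle : I ≤ RingHom.ker (eval (Sum.elim p w)) := by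
      rw [← hs, Ideal.span_le]
      intro g hg
      have hgI : g ∈ I := by rw [← hs]; exact Ideal.subset_span hg
      have h9 := hG g hgI
      have h10 : map (eval p) (C (d g) * sb g) = map (eval p) (F' * G g) := by
        ext u
        rw [coeff_map, coeff_map]
        have h11 := congrArg (coeff u) h9
        rw [coeff_map, coeff_map, ← sub_eq_zero, ← map_sub] at h11
        rw [← sub_eq_zero, ← map_sub]
        exact hp _ h11
      have h12 := congrArg (eval₂ (RingHom.id ℂ) w) h10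
      rw [eval₂_map, eval₂_map, RingHom.id_comp, eval₂_mul, eval₂_mul, h8, zero_mul, eval₂_C,
        sb_eval] at h12
      have h13 : eval p (d g) ≠ 0 := by
        rw [map_prod, Finset.prod_ne_zero_iff] at hhp
        exact hhp g hg
      rcases mul_eq_zero.1 h12 with h | h
      · exact absurd h h13
      · show eval (Sum.elim p w) g = 0
        rw [← h, eval, coe_eval₂Hom]
        congr 1
        · ext r
          simp
        · funext i
          rcases i with i | i
          · simp
          · simp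
    intro g hg
    exact hIle hg

/-- a variety has a point -/
theorem pt_nonempty [Finite σ] (ξ : σ → E) : ∃ p, p ∈ Pt ξ := by
  set I : Ideal (MvPolynomial σ ℂ) :=
    RingHom.ker (aeval ξ : MvPolynomial σ ℂ →ₐ[ℂ] E) with hI
  have hI1 : I ≠ ⊤ := RingHom.ker_ne_top _
  obtain ⟨M, hM, hIM⟩ := Ideal.exists_le_maximal I hI1
  obtain ⟨p, hp⟩ := MvPolynomial.isMaximal_iff_eq_vanishingIdeal_singleton.1 hM
  refine ⟨p, fun g hg => ?_⟩
  have h1 : g ∈ M := hIM hg
  rw [hp, MvPolynomial.mem_vanishingIdeal_singleton_iff] at h1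
  rw [← MvPolynomial.aeval_eq_eval]
  exact h1

/-- if `y` is algebraically independent over `ℂ(ξ)` -/
theorem pt_free (ξ : σ → E) {τ : Type} (y : τ → E)
    (hy : AlgebraicIndependent (IntermediateField.adjoin ℂ (Set.range ξ)) y) (p : σ → ℂ)
    (hp : p ∈ Pt ξ) (w : τ → ℂ) : Sum.elim p w ∈ Pt (Sum.elim ξ y) := by
  intro g hg
  obtain ⟨gK, h6, h7⟩ := sb_red ξ y g hg
  have h8 : gK = 0 := hy (by rw [h7, map_zero])
  rw [h8, map_zero] at h6
  have h9 : map (eval p) (sb g) = 0 := by
    ext u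
    rw [coeff_map, coeff_zero]
    apply hp
    have h10 := congrArg (coeff u) h6
    rw [coeff_map, coeff_zero] at h10
    exact h10.symm
  have h12 := congrArg (eval₂ (RingHom.id ℂ) w) h9
  rw [eval₂_map, RingHom.id_comp, sb_eval, eval₂_zero] at h12
  rw [← h12, eval, coe_eval₂Hom]
  congr 1
  · ext r
    simp
  · funext i
    rcases i with i | i
    · simp
    · simp

end Pool.Agent.Helper15.NT
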